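import Pool.Agent.HX.FPApprox

set_option autoImplicit false

/-!
Approximation of the dimensions of kernels over the complex numbers passes to free products.
-/

open Filter

/-- Let `G` be the free product of a nonempty family of groups `A j`, and let `π i : G → H i` be
homomorphisms such that every `g ≠ 1` eventually has nontrivial image. If approximation with complex
coefficients holds for every `A j` along the restrictions of the `π i`, then it holds for `G` along
the `π i`. -/
theorem Pool.Agent.HX.Kept.FreeProducts_ae12df {J : Type} [Nonempty J]
    (A : J → Type) [∀ j, Group (A j)] {I : Type} (l : Filter I) {H : I → Type}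
    [∀ i, Group (H i)] (π : ∀ i, Monoid.CoprodI A →* H i)
    (hπ : ∀ g : Monoid.CoprodI A, g ≠ 1 → ∀ᶠ i in l, π i g ≠ 1)
    (h : ∀ j, Pool.Agent.HX.ApproxAlong ⊤ l
      fun i => (π i).comp (Monoid.CoprodI.of : A j →* Monoid.CoprodI A)) :
    Pool.Agent.HX.ApproxAlong ⊤ l π :=
  Pool.Agent.HX.approx_coprodI A l π hπ h
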