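import Pool.Agent.HX.ApIndec

set_option autoImplicit false

/-!
Approximation over the complex numbers for torsion-free groups: only the finitely generated, freely
indecomposable subgroups without nontrivial homomorphism to the integers matter.
-/

open Filter

/-- Let `G` be a torsion-free group and `π i : G → H i` homomorphisms such that every `g ≠ 1`
eventually has nontrivial image. If every finitely generated, freely indecomposable subgroup `K` of
`G` without nontrivial homomorphism to `ℤ` satisfies the conclusion of the Atiyah conjecture and
approximation along the restrictions of the `π i`, both with complex coefficients, then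
approximation with complex coefficients holds for `G` along the `π i`. -/
theorem Pool.Agent.HX.Kept.OneEnded_ae12df {G : Type} [Group G]
    (htf : ∀ g : G, ∀ n : ℕ, 0 < n → g ^ n = 1 → g = 1)
    {I : Type} (l : Filter I) {H : I → Type} [∀ i, Group (H i)] (π : ∀ i, G →* H i)
    (hπ : ∀ g : G, g ≠ 1 → ∀ᶠ i in l, π i g ≠ 1)
    (h : ∀ K : Subgroup G, K.FG → (∀ f : K →* Multiplicative ℤ, f = 1) →
      Pool.Agent.HX.FreelyIndec K → Pool.Agent.VN.AtiyahOver ⊤ K ∧
        Pool.Agent.HX.ApproxAlong ⊤ l fun i => (π i).comp K.subtype) :
    Pool.Agent.HX.ApproxAlong ⊤ l π :=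
  Pool.Agent.HX.approx_of_indec htf l π hπ h
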